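import Pool.Agent.Y760.RT.Stm

/-!
Project RT: adapted bases of a space of functions on a finite set with real labels.
-/

set_option autoImplicit false

namespace Pool.Agent.Y287.RT

open Module

theorem ad_aux (K : Type) [Field K] (G : Type) [Fintype G] (val : G → ℝ) :
    ∀ (d : ℕ) (W : Submodule K (G → K)), finrank K W = d →
    ∃ (z : Fin d → (G → K)) (τ : Fin d → G), LinearIndependent K z ∧ (∀ j, z j ∈ W) ∧
      Function.Injective τ ∧ (∀ j, z j (τ j) ≠ 0) ∧ ∀ j g, z j g ≠ 0 → val (τ j) ≤ val g := by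
  intro d
  induction d with
  | zero =>
    intro W _
    exact ⟨fun j => j.elim0, fun j => j.elim0, linearIndependent_empty_type, fun j => j.elim0,
      fun j => j.elim0, fun j => j.elim0, fun j => j.elim0⟩
  | succ d ih =>
    intro W hW
    classical
    obtain ⟨g0, hg0, hmin⟩ : ∃ g0 ∈ (Finset.univ.filter fun g : G => ∃ z ∈ W, z g ≠ 0),
        ∀ g ∈ (Finset.univ.filter fun g : G => ∃ z ∈ W, z g ≠ 0), val g0 ≤ val g := by
      apply Finset.exists_min_image
      have hne : W ≠ ⊥ := by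
        rintro rfl
        rw [finrank_bot] at hW
        omega
      obtain ⟨w, hw, hw0⟩ := Submodule.exists_mem_ne_zero_of_ne_bot hne
      obtain ⟨g, hg⟩ := Function.ne_iff.1 hw0
      exact ⟨g, Finset.mem_filter.2 ⟨Finset.mem_univ _, w, hw, hg⟩⟩
    obtain ⟨-, z0, hz0, hz0g⟩ := Finset.mem_filter.1 hg0
    obtain ⟨ℓ, hℓ⟩ : ∃ ℓ : W →ₗ[K] K, ∀ w, ℓ w = (w : G → K) g0 :=
      ⟨(LinearMap.proj g0).comp W.subtype, fun w => rfl⟩
    have hsurj : LinearMap.range ℓ = ⊤ := by
      rw [LinearMap.range_eq_top]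
      intro c
      refine ⟨(c / z0 g0) • ⟨z0, hz0⟩, ?_⟩
      rw [map_smul, hℓ, smul_eq_mul]
      exact div_mul_cancel₀ c hz0g
    have hker : finrank K (LinearMap.ker ℓ) = d := by
      have h1 := LinearMap.finrank_range_add_finrank_ker ℓ
      rw [hsurj, finrank_top, finrank_self, hW] at h1
      omega
    have hker' : finrank K ((LinearMap.ker ℓ).map W.subtype) = d := by
      rw [Submodule.finrank_map_subtype_eq, hker]
    obtain ⟨z, τ, h1, h2, h3, h4, h5⟩ := ih _ hker'
    have hmem : ∀ w ∈ (LinearMap.ker ℓ).map W.subtype, w ∈ W ∧ w g0 = 0 := by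
      rintro w ⟨w', hw', rfl⟩
      refine ⟨w'.2, ?_⟩
      have h6 := LinearMap.mem_ker.1 hw'
      rw [hℓ] at h6
      exact h6
    refine ⟨Fin.cons z0 z, Fin.cons g0 τ, ?_, ?_, ?_, ?_, ?_⟩
    · rw [linearIndependent_finCons]
      refine ⟨h1, fun hspan => ?_⟩
      have h6 : Submodule.span K (Set.range z) ≤ (LinearMap.ker ℓ).map W.subtype := by
        rw [Submodule.span_le]
        rintro _ ⟨j, rfl⟩
        exact h2 j
      exact hz0g (hmem _ (h6 hspan)).2
    · intro j
      refine Fin.cases ?_ (fun j => ?_) j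
      · exact hz0
      · exact (hmem _ (h2 j)).1
    · rw [Fin.cons_injective_iff]
      refine ⟨?_, h3⟩
      rintro ⟨j, hj⟩
      exact h4 j (by rw [hj]; exact (hmem _ (h2 j)).2)
    · intro j
      refine Fin.cases ?_ (fun j => ?_) j
      · exact hz0g
      · exact h4 j
    · intro j
      refine Fin.cases ?_ (fun j => ?_) j
      · intro g hg
        exact hmin g (Finset.mem_filter.2 ⟨Finset.mem_univ _, z0, hz0, hg⟩)
      · exact fun g hg => h5 j g hg

/-- RT-AD -/
theorem ad : Pool.Agent.Y760.RT.AdStmt := by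
  intro K _ G _ W val
  obtain ⟨z, τ, h1, h2, h3, -, h5⟩ := ad_aux K G val (Module.finrank K W) W rfl
  exact ⟨z, τ, h1, h2, h3, h5⟩

end Pool.Agent.Y287.RT
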